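import Mathlib
import Pool.Agent.H.MP_bcbcf8_co.Defs
import Pool.Agent.H.MP_bcbcf8_co.BG.Def
import Pool.Agent.H.MP_bcbcf8_co.BG.All

/-!
# Removable edges in almost bipartite parts of cubic graphs

The graph is given by the function `ends`; multiple edges are allowed. `Bd ends S` is the set of the edges with one end in
`S` and one end outside `S`.
-/

set_option autoImplicit false

namespace Pool.Agent.Results.MP_bcbcf8_co.AlmostBipartite

open Pool.Agent.H.MP_bcbcf8_co

/-- Let `ends` describe a finite cubic graph without loops which has a 3-edge colouring, and let `S` be a set of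
more than two vertices, divided into `S ∩ A` and `S \ A`. If each of the two parts has at most one edge inside it, and the
number of the edges leaving `S` plus the number of the edges inside the part is at most four for each part, then some edge
with both ends in `S` is removable. -/
theorem result {V E : Type} [Finite V] [Finite E] (ends : E → Sym2 V)
    (hloop : ∀ e, ¬ (ends e).IsDiag) (hcubic : ∀ v, {e | v ∈ ends e}.ncard = 3)
    (hcol : ∃ c : E → Fin 3, IsCol ends c) (S A : Set V) (hS : 2 < S.ncard)
    (hA : {e | ∀ v ∈ ends e, v ∈ S ∩ A}.ncard ≤ 1)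
    (hA' : {e | ∀ v ∈ ends e, v ∈ S \ A}.ncard ≤ 1)
    (hcut : (Bd ends S).ncard + {e | ∀ v ∈ ends e, v ∈ S ∩ A}.ncard ≤ 4)
    (hcut' : (Bd ends S).ncard + {e | ∀ v ∈ ends e, v ∈ S \ A}.ncard ≤ 4) :
    ∃ e, (∀ v ∈ ends e, v ∈ S) ∧ Removable ends e :=
  all_main hloop hcubic hcol hS hA hA' hcut hcut'

end Pool.Agent.Results.MP_bcbcf8_co.AlmostBipartite
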