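import Mathlib
import Pool.Agent.H.MP_bcbcf8_co.Defs
import Pool.Agent.H.MP_bcbcf8_co.BG.Def
import Pool.Agent.H.MP_bcbcf8_co.BG.Main

/-!
# Removable edges of bipartite cubic graphs

The graph is given by the function `ends`; multiple edges are allowed. `Bd ends S` is the set of the edges with one end in
`S` and one end outside `S`, and `InCut ends e` says that some `Bd ends S` has exactly two elements, one of them `e`.
-/

set_option autoImplicit false

namespace Pool.Agent.Results.MP_bcbcf8_co.BipartiteGraphs

open Pool.Agent.H.MP_bcbcf8_co

/-- Let `ends` describe a finite cubic graph which is bipartite: every edge has one end in `A` and one end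
outside `A`. An edge is removable if and only if it is in no 2-edge cut, and there is a removable edge. -/
theorem result {V E : Type} [Finite V] [Nonempty V] [Finite E] (ends : E → Sym2 V)
    (hcubic : ∀ v, {e | v ∈ ends e}.ncard = 3) (A : Set V)
    (hbip : ∀ e, ∃ u ∈ A, ∃ v ∉ A, ends e = s(u, v)) :
    (∀ e, Removable ends e ↔ ¬ InCut ends e) ∧ ∃ e, Removable ends e :=
  bip_main hbip hcubic

end Pool.Agent.Results.MP_bcbcf8_co.BipartiteGraphs
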