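import Mathlib
import Pool.Agent.H.MP_bcbcf8_co.Defs
import Pool.Agent.H.MP_bcbcf8_co.Cay

/-!
# Removable edges in cubic Cayley graphs

`Γ` is a finite group, `S` a generating set of three elements different from `1`, closed under inverses, so
that the Cayley graph `Cay(Γ, S)` (vertices `Γ`, edges `{g, g t}` with `t ∈ S`) is a connected cubic graph.
-/

set_option autoImplicit false

namespace Pool.Agent.Results.MP_bcbcf8_co.CayleyGraphs

open Pool.Agent.H.MP_bcbcf8_co

/-- Let `Γ` be a finite group and `S` a generating set of three elements different from `1`, closed under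
inverses, all of even order: three involutions, or an involution, an element `x` of even order > 2 and its
inverse. In the first case assume that no `y ≠ 1` is inverted by all three involutions, in the second case that
`Γ` has trivial centre. (So both assumptions hold if `Γ` has no nontrivial cyclic normal subgroup.) Then the
Cayley graph of `Γ` and `S` has a 3-edge colouring, and for some `t ∈ S` all the edges `{g, g t}` are
removable. -/
theorem result {Γ : Type} [Group Γ] [Finite Γ] (S : Set Γ) (h1 : 1 ∉ S) (hinv : ∀ t ∈ S, t⁻¹ ∈ S)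
    (hcard : S.ncard = 3) (hgen : Subgroup.closure S = ⊤) (heven : ∀ t ∈ S, Even (orderOf t))
    (hA : (∀ t ∈ S, t⁻¹ = t) → ∀ y : Γ, (∀ t ∈ S, t * y * t⁻¹ = y⁻¹) → y = 1)
    (hB : (∃ t ∈ S, t⁻¹ ≠ t) → Subgroup.center Γ = ⊥) :
    (∃ c : CayEdge S → Fin 3, IsCol (cayEnds S) c) ∧
      ∃ (t : Γ) (ht : t ∈ S), ∀ g : Γ, Removable (cayEnds S) (cayEdge S g t ht) :=
  cay_main S h1 hinv hcard hgen heven hA hB

end Pool.Agent.Results.MP_bcbcf8_co.CayleyGraphs
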