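import Mathlib
import Pool.Agent.H.MP_bcbcf8_co.Defs
import Pool.Agent.H.MP_bcbcf8_co.Final

set_option autoImplicit false

namespace Pool.Agent.Results.MP_bcbcf8_co.ShortCycles

open Pool.Agent.H.MP_bcbcf8_co

/-- Let `ends` describe a finite cubic graph without loops (multiple edges are allowed) which has a
3-edge colouring. Every closed trail of length at most 13 contains a removable edge. -/
theorem result {V E : Type} [Finite V] [Finite E] (ends : E → Sym2 V)
    (hloop : ∀ e, ¬ (ends e).IsDiag) (_hcubic : ∀ v, {e | v ∈ ends e}.ncard = 3)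
    (hcol : ∃ c : E → Fin 3, IsCol ends c) (m : ℕ) (hm : 2 ≤ m) (hm13 : m ≤ 13)
    (z : ZMod m → V) (ε : ZMod m → E) (hε : Function.Injective ε)
    (hends : ∀ i, ends (ε i) = s(z i, z (i + 1))) : ∃ i, Removable ends (ε i) := by
  obtain ⟨φ, hφ⟩ := hcol
  exact final hloop φ hφ m hm hm13 z ε hε hends

end Pool.Agent.Results.MP_bcbcf8_co.ShortCycles
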